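import Pool.Agent.Lib.MP_89fcdb_gt.H45.Main

/-!
# MP_89fcdb_gt: Rudyak's conjecture on the Lusternik-Schnirelmann category is false

There are closed connected oriented `8`-manifolds `M`, `N` and a map `f : M → N` of degree one
with `cat(M) ≤ 5` and `cat(N) ≥ 6`. (In the proof `N` is the quotient of `SU(3)` by the subgroup
generated by `diag(-1,-1,1)`, and `M` is the product of real projective `3`-space and the
nontrivial `S³`-bundle over `S²`.)
-/

namespace Pool.Agent.Results.MP_89fcdb_gt.RudyakFalse

open Pool.Agent.Lib.MP_89fcdb_gt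

/-- There are closed connected oriented `8`-manifolds `M`, `N` with fundamental cycles `μ`, `ν`
and a map `f : M → N` with `f_*[μ] = [ν]` such that `cat(M) ≤ 5 < 6 ≤ cat(N)`. -/
theorem result :
    ∃ (M N : Type) (_ : TopologicalSpace M) (_ : TopologicalSpace N),
      IsClosedManifold 8 M ∧ IsClosedManifold 8 N ∧
      ∃ (μ : Chain 8 M) (ν : Chain 8 N) (f : C(M, N)), IsFundamental μ ∧ IsFundamental ν ∧
        Homologous (push 8 f μ) ν ∧ lsCat M ≤ 5 ∧ 6 ≤ lsCat N :=
  mainStatement

end Pool.Agent.Results.MP_89fcdb_gt.RudyakFalse
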